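import Pool.Agent.Q300.Tree.Types

/-!
# MP_74a3dd_lc, Q1: isotypic algebras, one finitely generated and the other not

The answer is negative: there is a (countable, unary) algebraic signature and there are two
isotypic algebras `H₁`, `H₂` of this signature such that `H₁` is generated by one element and `H₂`
is not finitely generated.
-/

set_option autoImplicit false

open FirstOrder FirstOrder.Language

namespace Pool.Agent.Results.MP_74a3dd_lc.NotFinitelyGenerated

/-- Every type of a finite tuple which is realized in `M` is realized in `N`. -/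
def TypesIn (L : FirstOrder.Language.{0, 0}) (M N : Type) [L.Structure M] [L.Structure N] : Prop :=
  ∀ (n : ℕ) (a : Fin n → M), ∃ b : Fin n → N,
    ∀ φ : L.Formula (Fin n), φ.Realize a ↔ φ.Realize b

/-- Isotypic algebras: the same types of finite tuples are realized. -/
def Isotypic (L : FirstOrder.Language.{0, 0}) (M N : Type) [L.Structure M] [L.Structure N] :
    Prop :=
  TypesIn L M N ∧ TypesIn L N M

/-- There are a signature (with operation symbols only, all of them unary) and isotypic algebras
`H₁` and `H₂` of it such that `H₁` is generated by one element and `H₂` is not finitely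
generated. -/
theorem result : ∃ (L : FirstOrder.Language.{0, 0}) (H₁ H₂ : Type) (_ : L.Structure H₁)
    (_ : L.Structure H₂), L.IsAlgebraic ∧ (∀ n, n ≠ 1 → IsEmpty (L.Functions n)) ∧
      Isotypic L H₁ H₂ ∧ (∃ a : H₁, Substructure.closure L {a} = ⊤) ∧
      ¬ ∃ s : Finset H₂, Substructure.closure L (s : Set H₂) = ⊤ := by
  refine ⟨Q300.Tree.Lang, Q300.Tree.S (Set.Ici 0), Q300.Tree.S Set.univ, inferInstance, inferInstance,
    inferInstance, ?_, ⟨?_, ?_⟩, ?_, ?_⟩
  · intro n hn
    constructor
    intro f
    cases f <;> exact hn rfl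
  · intro n a
    refine Q300.Tree.types_of_shift (isUpperSet_Ici 0) ⟨0, Set.self_mem_Ici⟩ isUpperSet_univ
      ⟨0, trivial⟩ a 0 fun i => ?_
    exact Q300.Tree.shift_mem (fun _ _ => Set.mem_univ _) (a i).2
  · intro n a
    -- a lower bound for the levels of the tuple
    obtain ⟨k, hk⟩ : ∃ k : ℤ, ∀ i, k ≤ (a i : Q300.Tree.Node).lev := by
      have h1 : (Set.range fun i => (a i : Q300.Tree.Node).lev).Finite := Set.finite_range _
      obtain ⟨b, hb⟩ := h1.bddBelow
      exact ⟨b, fun i => hb ⟨i, rfl⟩⟩
    refine Q300.Tree.types_of_shift isUpperSet_univ ⟨0, trivial⟩ (isUpperSet_Ici 0)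
      ⟨0, Set.self_mem_Ici⟩ a (|k|) fun i => ?_
    have h2 : (a i : Q300.Tree.Node) ∈ Q300.Tree.S (Set.Ici k) := by
      intro j hj h0
      exact ⟨(hk i).trans hj, ((a i).2 j hj h0).2⟩
    refine Q300.Tree.shift_mem ?_ h2
    intro j hj
    have h3 : k ≤ j := hj
    have h4 := neg_abs_le k
    have h5 := abs_nonneg k
    exact Set.mem_Ici.2 (by omega)
  · exact Q300.Tree.cyclic_Ici 0
  · rintro ⟨s, hs⟩
    exact Q300.Tree.not_fg_univ (Structure.fg_def.2 ⟨s, hs⟩)

end Pool.Agent.Results.MP_74a3dd_lc.NotFinitelyGenerated
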